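import Mathlib

set_option autoImplicit false

/-!
# The solutions of `p² - 2 r² = -1`
-/

namespace Pool.Agent.R242.PE

/-- `(h, u)` with `h + u √2 = (1 + √2) ^ l`. -/
def sN : ℕ → ℕ × ℕ
  | 0 => (1, 0)
  | (l + 1) => ((sN l).1 + 2 * (sN l).2, (sN l).1 + (sN l).2)

lemma sN_succ (l : ℕ) : (sN (l + 1)).1 = (sN l).1 + 2 * (sN l).2 ∧
    (sN (l + 1)).2 = (sN l).1 + (sN l).2 := ⟨rfl, rfl⟩

lemma sN_odd (l : ℕ) : (sN l).1 % 2 = 1 := by
  induction l with
  | zero => rfl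
  | succ l ih =>
    rw [(sN_succ l).1]
    omega

lemma sN_pos (l : ℕ) : 0 < (sN l).1 := by
  have := sN_odd l
  omega

lemma sN_pos2 (l : ℕ) : 0 < (sN (l + 1)).2 := by
  rw [(sN_succ l).2]
  have := sN_pos l
  omega

lemma sN_norm (l : ℕ) : ((sN l).1 : ℤ) ^ 2 - 2 * ((sN l).2 : ℤ) ^ 2 = (-1) ^ l := by
  induction l with
  | zero => simp [sN]
  | succ l ih =>
    rw [(sN_succ l).1, (sN_succ l).2, pow_succ (-1 : ℤ) l, ← ih]
    push_cast
    ring

lemma sN_add (l d : ℕ) : (sN (l + d)).1 = (sN l).1 * (sN d).1 + 2 * ((sN l).2 * (sN d).2) ∧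
    (sN (l + d)).2 = (sN l).1 * (sN d).2 + (sN l).2 * (sN d).1 := by
  induction d with
  | zero => simp [sN]
  | succ d ih =>
    rw [← add_assoc, (sN_succ (l + d)).1, (sN_succ (l + d)).2, (sN_succ d).1, (sN_succ d).2, ih.1,
      ih.2]
    constructor <;> ring

lemma sN_lt (l : ℕ) : (sN (l + 1)).1 < (sN (l + 2)).1 := by
  rw [(sN_succ (l + 1)).1]
  have := sN_pos2 l
  omega

lemma sN_lt_of {a b : ℕ} (ha : 1 ≤ a) (hab : a < b) : (sN a).1 < (sN b).1 := by
  obtain ⟨c, rfl⟩ := Nat.exists_eq_add_of_le ha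
  induction b with
  | zero => omega
  | succ b ih =>
    rcases Nat.lt_or_ge (1 + c) b with h | h
    · obtain ⟨d, rfl⟩ := Nat.exists_eq_add_of_le (show 1 ≤ b by omega)
      have h1 := sN_lt d
      have h2 := ih h
      rw [show 1 + d = d + 1 by ring] at *
      exact h2.trans h1
    · have : b = 1 + c := by omega
      subst this
      have h1 := sN_lt c
      rw [show 1 + c = c + 1 by ring]
      exact h1

lemma dvd_step (d : ℕ) : ∀ j : ℕ, (sN d).1 ∣ (sN (d * (2 * j + 1))).1 := by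
  intro j
  induction j with
  | zero => simp
  | succ j ih =>
    have h1 : d * (2 * (j + 1) + 1) = d * (2 * j + 1) + (d + d) := by ring
    rw [h1, (sN_add _ _).1, (sN_add d d).2]
    refine dvd_add (ih.mul_right _) ?_
    have h2 : 2 * ((sN (d * (2 * j + 1))).2 * ((sN d).1 * (sN d).2 + (sN d).2 * (sN d).1)) =
        (sN d).1 * (4 * (sN (d * (2 * j + 1))).2 * (sN d).2) := by ring
    rw [h2]
    exact dvd_mul_right _ _

/-- the index of a prime `p_k` is prime -/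
lemma index_prime {k : ℕ} (hp : ((sN (2 * k + 1)).1).Prime) : (2 * k + 1).Prime := by
  by_contra hn
  have hk : k ≠ 0 := by
    rintro rfl
    exact Nat.not_prime_one (by simpa [sN] using hp)
  have h2 : 2 ≤ 2 * k + 1 := by omega
  obtain ⟨d, hd1, hd2, hd3⟩ := (Nat.not_prime_iff_exists_dvd_lt h2).1 hn
  obtain ⟨m, hm⟩ := hd1
  have hmo : Odd m := by
    have : Odd (d * m) := by rw [← hm]; exact ⟨k, rfl⟩
    exact (Nat.odd_mul.1 this).2
  obtain ⟨j, hj⟩ := hmo
  have h3 := dvd_step d j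
  rw [← hj, ← hm] at h3
  rcases (Nat.dvd_prime hp).1 h3 with h4 | h4
  · have h5 := sN_lt_of (a := 1) (b := d) le_rfl (by omega)
    rw [h4] at h5
    simp [sN] at h5
  · have h5 := sN_lt_of (a := d) (b := 2 * k + 1) (by omega) hd3
    omega

lemma exists_sN (r : ℕ) : ∀ p : ℕ, 0 < p → 0 < r → p ^ 2 + 1 = 2 * r ^ 2 →
    ∃ k, sN (2 * k + 1) = (p, r) := by
  induction r using Nat.strong_induction_on with
  | _ r ih =>
    intro p hp hr h
    rcases (by omega : r = 1 ∨ r = 2 ∨ 3 ≤ r) with h1 | h1 | h1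
    · subst h1
      have : p = 1 := by nlinarith
      subst this
      exact ⟨0, rfl⟩
    · subst h1
      exfalso
      have h2 : p ^ 2 = 7 := by omega
      have h3 : p < 3 := by nlinarith
      interval_cases p <;> omega
    · have h2 : 4 * r < 3 * p := by nlinarith
      have h3 : 2 * p < 3 * r := by nlinarith
      have h4 : r < p := by nlinarith
      obtain ⟨k, hk⟩ := ih (3 * r - 2 * p) (by omega) (3 * p - 4 * r) (by omega) (by omega) (by
        zify [h2.le, h3.le] at h ⊢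
        linear_combination h)
      refine ⟨k + 1, ?_⟩
      have e1 : (sN (2 * k + 1)).1 = 3 * p - 4 * r := by rw [hk]
      have e2 : (sN (2 * k + 1)).2 = 3 * r - 2 * p := by rw [hk]
      rw [show 2 * (k + 1) + 1 = (2 * k + 1) + 2 by ring]
      refine Prod.ext ?_ ?_
      · rw [(sN_add _ 2).1, e1, e2]
        simp only [sN]
        omega
      · rw [(sN_add _ 2).2, e1, e2]
        simp only [sN]
        omega

/-- the solutions of the equation -/
lemma sol_iff (p r : ℕ) : (0 < p ∧ 0 < r ∧ p ^ 2 + 1 = 2 * r ^ 2) ↔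
    ∃ k, (sN (2 * k + 1)).1 = p ∧ (sN (2 * k + 1)).2 = r := by
  constructor
  · rintro ⟨h1, h2, h3⟩
    obtain ⟨k, hk⟩ := exists_sN r p h1 h2 h3
    exact ⟨k, by rw [hk], by rw [hk]⟩
  · rintro ⟨k, rfl, rfl⟩
    refine ⟨sN_pos _, sN_pos2 _, ?_⟩
    have h := sN_norm (2 * k + 1)
    rw [Odd.neg_one_pow ⟨k, rfl⟩] at h
    zify
    linarith

/-- sets of solutions and sets of prime indices -/
lemma inf_iff {A : ℕ → ℕ → Prop} (hA : ∀ p r, A p r → p.Prime) :
    {x : ℕ × ℕ | 0 < x.1 ∧ 0 < x.2 ∧ x.1 ^ 2 + 1 = 2 * x.2 ^ 2 ∧ A x.1 x.2}.Infinite ↔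
      {l : ℕ | l.Prime ∧ 2 < l ∧ A (sN l).1 (sN l).2}.Infinite := by
  have himg : {x : ℕ × ℕ | 0 < x.1 ∧ 0 < x.2 ∧ x.1 ^ 2 + 1 = 2 * x.2 ^ 2 ∧ A x.1 x.2} =
      sN '' {l : ℕ | l.Prime ∧ 2 < l ∧ A (sN l).1 (sN l).2} := by
    ext ⟨p, r⟩
    constructor
    · rintro ⟨h1, h2, h3, h4⟩
      obtain ⟨k, hk1, hk2⟩ := (sol_iff p r).1 ⟨h1, h2, h3⟩
      have hA' : A (sN (2 * k + 1)).1 (sN (2 * k + 1)).2 := by rw [hk1, hk2]; exact h4
      have hpr := index_prime (hA _ _ hA')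
      refine ⟨2 * k + 1, ⟨hpr, ?_, hA'⟩, Prod.ext hk1 hk2⟩
      have := hpr.two_le
      omega
    · rintro ⟨l, ⟨hl, hl2, hlA⟩, hlx⟩
      obtain ⟨k, hk⟩ := hl.eq_two_or_odd'.resolve_left (by omega)
      rw [hk] at hlx hlA
      have h := (sol_iff (sN (2 * k + 1)).1 (sN (2 * k + 1)).2).2 ⟨k, rfl, rfl⟩
      rw [← hlx]
      exact ⟨h.1, h.2.1, h.2.2, hlA⟩
  rw [himg]
  refine Set.infinite_image_iff ?_
  intro a ha b hb hab
  have h1 := ha.1.two_le
  have h2 := hb.1.two_le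
  rcases lt_trichotomy a b with h | h | h
  · have := sN_lt_of (by omega) h
    rw [hab] at this
    exact absurd this (lt_irrefl _)
  · exact h
  · have := sN_lt_of (by omega) h
    rw [hab] at this
    exact absurd this (lt_irrefl _)

end Pool.Agent.R242.PE
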