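import Mathlib

set_option autoImplicit false

/-!
# Small perturbations of `β α ^ p` do not change the integer part
-/

namespace Pool.Agent.R242.PE

open Filter Topology MeasureTheory Set

/-- `β α ^ p` is within `K / α ^ p` of an integer -/
def bad (α K M : ℝ) (p : ℕ) : Set ℝ :=
  {β | 0 ≤ β ∧ β ≤ M ∧ ∃ m : ℤ, |β * α ^ p - m| ≤ K / α ^ p}

lemma bad_measure {α K M : ℝ} (hα : 1 < α) (hK : 0 < K) (hM : 0 < M) (p : ℕ) :
    volume (bad α K M p) ≤ ENNReal.ofReal ((2 * K * (M + 2 * K + 4)) * (α⁻¹) ^ p) := by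
  have hα0 : 0 < α := by linarith
  set x := α ^ p with hx
  have hx1 : 1 ≤ x := one_le_pow₀ hα.le
  have hx0 : 0 < x := by linarith
  set N : ℕ := ⌊M * x + K + K + 1⌋₊ + 1 with hN
  -- the integers involved
  have hsub : bad α K M p ⊆ ⋃ j ∈ Finset.range N,
      Icc ((((j : ℝ) - (⌈K⌉₊ : ℝ)) - K / x) / x) ((((j : ℝ) - (⌈K⌉₊ : ℝ)) + K / x) / x) := by
    rintro β ⟨h0, h1, m, hm⟩
    rw [abs_le] at hm
    have hKx : K / x ≤ K := div_le_self hK.le hx1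
    have hKx0 : 0 < K / x := by positivity
    have hβx : 0 ≤ β * x := by positivity
    have hm1 : -K ≤ (m : ℝ) := by linarith [hm.2]
    have hceil : K ≤ (⌈K⌉₊ : ℝ) := Nat.le_ceil K
    have hm2 : 0 ≤ m + (⌈K⌉₊ : ℤ) := by
      have : (-1 : ℝ) < (m : ℝ) + (⌈K⌉₊ : ℝ) := by linarith
      have h3 : (-1 : ℤ) < m + (⌈K⌉₊ : ℤ) := by exact_mod_cast this
      omega
    obtain ⟨j, hj⟩ := Int.eq_ofNat_of_zero_le hm2
    have hjr : (j : ℝ) = m + (⌈K⌉₊ : ℝ) := by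
      have : ((j : ℤ) : ℝ) = ((m + (⌈K⌉₊ : ℤ) : ℤ) : ℝ) := by rw [hj]
      push_cast at this
      exact this
    have hMx : β * x ≤ M * x := by gcongr
    rw [mem_iUnion₂]
    refine ⟨j, ?_, ?_⟩
    · rw [Finset.mem_range, hN, Nat.lt_succ_iff]
      refine Nat.le_floor ?_
      have h5 : (⌈K⌉₊ : ℝ) < K + 1 := Nat.ceil_lt_add_one hK.le
      rw [hjr]
      linarith [hm.1]
    · rw [mem_Icc, hjr, div_le_iff₀ hx0, le_div_iff₀ hx0]
      constructor <;> linarith [hm.1, hm.2]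
  refine (measure_mono hsub).trans ((measure_biUnion_finset_le _ _).trans ?_)
  have hone : ∀ j ∈ Finset.range N, volume (Icc ((((j : ℝ) - (⌈K⌉₊ : ℝ)) - K / x) / x)
      ((((j : ℝ) - (⌈K⌉₊ : ℝ)) + K / x) / x)) = ENNReal.ofReal (2 * K / x ^ 2) := by
    intro j _
    rw [Real.volume_Icc]
    congr 1
    field_simp
    ring
  rw [Finset.sum_congr rfl hone, Finset.sum_const, Finset.card_range, nsmul_eq_mul,
    ← ENNReal.ofReal_natCast, ← ENNReal.ofReal_mul (Nat.cast_nonneg _)]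
  apply ENNReal.ofReal_le_ofReal
  have hNle : (N : ℝ) ≤ (M + 2 * K + 4) * x := by
    rw [hN]
    push_cast
    have h6 := Nat.floor_le (show 0 ≤ M * x + K + K + 1 by positivity)
    nlinarith
  have h7 : (α⁻¹) ^ p = 1 / x := by rw [inv_pow, hx, one_div]
  rw [h7]
  calc (N : ℝ) * (2 * K / x ^ 2) ≤ ((M + 2 * K + 4) * x) * (2 * K / x ^ 2) := by gcongr
    _ = 2 * K * (M + 2 * K + 4) * (1 / x) := by field_simp

/-- almost surely perturbations of size `K / α ^ p` do not change the integer part -/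
theorem ae_floor {α : ℝ} (hα : 1 < α) : ∀ᵐ β : ℝ, 0 < β → ∀ g : ℕ → ℝ, ∀ K : ℝ,
    (∀ p, |g p| ≤ K / α ^ p) → ∀ᶠ p : ℕ in atTop, ⌊β * α ^ p + g p⌋₊ = ⌊β * α ^ p⌋₊ := by
  have hα0 : 0 < α := by linarith
  have key : ∀ k : ℕ, ∀ᵐ β : ℝ, ∀ᶠ p : ℕ in atTop, β ∉ bad α (k + 1) (k + 1) p := by
    intro k
    refine ae_eventually_notMem ?_
    have hk : (0 : ℝ) < (k : ℝ) + 1 := by positivity
    refine ne_top_of_le_ne_top ?_ (ENNReal.tsum_le_tsum fun p => bad_measure hα hk hk p)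
    have hs : Summable fun p : ℕ => (2 * ((k : ℝ) + 1) * ((k : ℝ) + 1 + 2 * ((k : ℝ) + 1) + 4)) *
        (α⁻¹) ^ p := (summable_geometric_of_lt_one (by positivity) (inv_lt_one_of_one_lt₀ hα)).mul_left _
    exact hs.tsum_ofReal_ne_top
  filter_upwards [ae_all_iff.2 key] with β hβ h0 g K hg
  obtain ⟨k, hk⟩ := exists_nat_ge (max β K)
  have hβk : β ≤ (k : ℝ) + 1 := (le_max_left _ _).trans (hk.trans (by linarith))
  have hKk : K ≤ (k : ℝ) + 1 := (le_max_right _ _).trans (hk.trans (by linarith))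
  filter_upwards [hβ k] with p hp
  have hx0 : 0 < α ^ p := pow_pos hα0 p
  by_contra hne
  apply hp
  have hgp : |g p| ≤ ((k : ℝ) + 1) / α ^ p := (hg p).trans (by gcongr)
  refine ⟨h0.le, hβk, ?_⟩
  set y := β * α ^ p with hy
  have hy0 : 0 < y := by positivity
  rw [abs_le] at hgp
  rcases le_total 0 (g p) with h | h
  · -- the integer part grows
    have h1 : ⌊y⌋₊ < ⌊y + g p⌋₊ :=
      lt_of_le_of_ne (Nat.floor_le_floor (by linarith)) (Ne.symm hne)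
    refine ⟨(⌊y + g p⌋₊ : ℤ), ?_⟩
    have h2 : (⌊y + g p⌋₊ : ℝ) ≤ y + g p := Nat.floor_le (by linarith)
    have h3 : y < (⌊y⌋₊ : ℝ) + 1 := Nat.lt_floor_add_one y
    have h4 : ((⌊y⌋₊ : ℝ) + 1) ≤ (⌊y + g p⌋₊ : ℝ) := by exact_mod_cast h1
    rw [abs_le]
    push_cast
    constructor <;> linarith [hgp.2]
  · have h1 : ⌊y + g p⌋₊ < ⌊y⌋₊ :=
      lt_of_le_of_ne (Nat.floor_le_floor (by linarith)) hne
    refine ⟨(⌊y⌋₊ : ℤ), ?_⟩
    have h2 : (⌊y⌋₊ : ℝ) ≤ y := Nat.floor_le hy0.le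
    have h3 : y + g p < (⌊y + g p⌋₊ : ℝ) + 1 := Nat.lt_floor_add_one _
    have h4 : ((⌊y + g p⌋₊ : ℝ) + 1) ≤ (⌊y⌋₊ : ℝ) := by exact_mod_cast h1
    rw [abs_le]
    push_cast
    constructor <;> linarith [hgp.1]

end Pool.Agent.R242.PE
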