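import Mathlib
import Pool.Agent.H19P.QA
import Pool.Agent.R242.PE.BC
import Pool.Agent.R242.PE.Arith

set_option autoImplicit false

/-!
# The real points of `p² - 2 r² = -1`
-/

namespace Pool.Agent.R242.PE

open Filter Topology MeasureTheory Set
open Pool.Agent.TH888.R (Pt cS VS)

open Classical in
lemma cS_le {s s' : ℕ → ℕ} {S : Set ℕ} {N : ℕ} (h : ∀ p ≥ N, p.Prime → s p = s' p) (n : ℕ) :
    cS S s n ≤ cS S s' n + N := by
  unfold cS
  refine (Finset.card_le_card (t := ((Finset.range (n + 1)).filter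
    (fun p => p.Prime ∧ p ∈ S ∧ (Pool.Agent.H305R2.roughPart p (s' p)).Prime)) ∪ Finset.range N) ?_).trans
    ((Finset.card_union_le _ _).trans (by rw [Finset.card_range]))
  intro p hp
  rw [Finset.mem_filter] at hp
  rw [Finset.mem_union, Finset.mem_filter]
  by_cases hN : N ≤ p
  · left
    refine ⟨hp.1, hp.2.1, hp.2.2.1, ?_⟩
    rw [← h p hN hp.2.1]
    exact hp.2.2.2
  · right
    rw [Finset.mem_range]
    omega

theorem Pt_congr {s s' : ℕ → ℕ} {c : ℝ} {S : Set ℕ} (h : Pt s c S)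
    (he : ∀ᶠ p : ℕ in atTop, p.Prime → s p = s' p) : Pt s' c S := by
  obtain ⟨N, hN⟩ := eventually_atTop.1 he
  have h1 : ∀ n, cS S s n ≤ cS S s' n + N := cS_le hN
  have h2 : ∀ n, cS S s' n ≤ cS S s n + N := cS_le fun p hp hpp => (hN p hp hpp).symm
  refine ⟨fun hV => ?_, fun hV => ?_, fun hV => ?_⟩
  · obtain ⟨B, hB, hl⟩ := h.law hV
    refine ⟨B + N, by positivity, fun n hn => ?_⟩
    have h3 := hl n hn
    have h4 : 1 ≤ Pool.Agent.TH888.R.gr (VS S n * (1 + Real.log (Real.log n))) := by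
      refine Pool.Agent.TH888.R.one_le_gr ?_
      have := Pool.Agent.TH888.R.loglog_nonneg hn
      have := Pool.Agent.TH888.R.VS_nonneg S n
      positivity
    have h5 : |(cS S s' n : ℝ) - cS S s n| ≤ N := by
      have a1 : (cS S s n : ℝ) ≤ cS S s' n + N := by exact_mod_cast h1 n
      have a2 : (cS S s' n : ℝ) ≤ cS S s n + N := by exact_mod_cast h2 n
      rw [abs_le]
      constructor <;> linarith
    have h6 := abs_add_le ((cS S s' n : ℝ) - cS S s n) (cS S s n - c * VS S n)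
    have e : (cS S s' n : ℝ) - cS S s n + (cS S s n - c * VS S n) = cS S s' n - c * VS S n := by ring
    rw [e] at h6
    have h7 : (N : ℝ) ≤ N * Pool.Agent.TH888.R.gr (VS S n * (1 + Real.log (Real.log n))) := by
      have : (0 : ℝ) ≤ N := Nat.cast_nonneg N
      nlinarith
    linarith
  · intro hfin
    refine (h.inf hV) ((hfin.union (Set.finite_lt_nat N)).subset fun p hp => ?_)
    by_cases hp' : N ≤ p
    · refine Or.inl ⟨hp.1, hp.2.1, ?_⟩
      rw [← hN p hp' hp.1]
      exact hp.2.2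
    · exact Or.inr (by show p < N; omega)
  · refine ((h.fin hV).union (Set.finite_lt_nat N)).subset fun p hp => ?_
    by_cases hp' : N ≤ p
    · refine Or.inl ⟨hp.1, hp.2.1, ?_⟩
      rw [hN p hp' hp.1]
      exact hp.2.2
    · exact Or.inr (by show p < N; omega)

/-- The orbit of a point under `(p, r) ↦ (3 p + 4 r, 2 p + 3 r)`. -/
noncomputable def orb (x : ℝ × ℝ) : ℕ → ℝ × ℝ
  | 0 => x
  | (k + 1) => (3 * (orb x k).1 + 4 * (orb x k).2, 2 * (orb x k).1 + 3 * (orb x k).2)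

/-- The point `(y, r)`, `r > 0`, of the hyperbola `p² - 2 r² = -1`. -/
noncomputable def point (y : ℝ) : ℝ × ℝ := (y, Real.sqrt ((1 + y ^ 2) / 2))

noncomputable def uu (y : ℝ) : ℝ := y + Real.sqrt (1 + y ^ 2)

lemma uu_pos (y : ℝ) : 0 < uu y := by
  unfold uu
  have h1 : |y| < Real.sqrt (1 + y ^ 2) := by
    rw [← Real.sqrt_sq_eq_abs]
    exact Real.sqrt_lt_sqrt (sq_nonneg _) (by linarith)
  have h2 := neg_abs_le y
  linarith

lemma uu_inv (y : ℝ) : (uu y)⁻¹ = Real.sqrt (1 + y ^ 2) - y := by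
  refine inv_eq_of_mul_eq_one_right ?_
  unfold uu
  have h2 : Real.sqrt (1 + y ^ 2) ^ 2 = 1 + y ^ 2 := Real.sq_sqrt (by positivity)
  nlinarith

/-- the fundamental unit -/
noncomputable def al : ℝ := 1 + Real.sqrt 2

lemma s2 : Real.sqrt 2 ^ 2 = 2 := Real.sq_sqrt (by norm_num)

lemma s2_pos : 0 < Real.sqrt 2 := Real.sqrt_pos.2 (by norm_num)

lemma al_gt : 1 < al := by
  unfold al
  have := s2_pos
  linarith

lemma al_sq : al ^ 2 = 3 + 2 * Real.sqrt 2 := by
  unfold al
  have := s2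
  nlinarith

lemma al_inv_sq : (al ^ 2)⁻¹ = 3 - 2 * Real.sqrt 2 := by
  rw [al_sq]
  refine inv_eq_of_mul_eq_one_right ?_
  have := s2
  nlinarith

lemma step1 (z w : ℝ) : 3 * ((z - w) / 2) + 4 * ((z + w) / (2 * Real.sqrt 2)) =
    (z * (3 + 2 * Real.sqrt 2) - w * (3 - 2 * Real.sqrt 2)) / 2 := by
  have h2 := s2
  have h2p := s2_pos
  have h3 : (1 : ℝ) / Real.sqrt 2 = Real.sqrt 2 / 2 := by
    rw [div_eq_div_iff h2p.ne' (by norm_num)]; linarith [h2]
  have h4 : (z + w) / (2 * Real.sqrt 2) = (z + w) / 2 * (1 / Real.sqrt 2) := by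
    field_simp
  rw [h4, h3]
  ring

lemma step2 (z w : ℝ) : 2 * ((z - w) / 2) + 3 * ((z + w) / (2 * Real.sqrt 2)) =
    (z * (3 + 2 * Real.sqrt 2) + w * (3 - 2 * Real.sqrt 2)) / (2 * Real.sqrt 2) := by
  have h2 := s2
  have h2p := s2_pos
  rw [eq_div_iff (by positivity)]
  have h3 : (z + w) / (2 * Real.sqrt 2) * (2 * Real.sqrt 2) = z + w := by field_simp
  linear_combination 3 * h3

lemma step0 (y : ℝ) : Real.sqrt ((1 + y ^ 2) / 2) =
    (y + Real.sqrt (1 + y ^ 2) + (Real.sqrt (1 + y ^ 2) - y)) / (2 * Real.sqrt 2) := by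
  rw [Real.sqrt_div (by positivity)]
  field_simp
  ring

/-- closed form of the orbit -/
lemma orb_closed (y : ℝ) (k : ℕ) :
    (orb (point y) k).1 = (uu y * al ^ (2 * k) - (uu y * al ^ (2 * k))⁻¹) / 2 ∧
      (orb (point y) k).2 =
        (uu y * al ^ (2 * k) + (uu y * al ^ (2 * k))⁻¹) / (2 * Real.sqrt 2) := by
  induction k with
  | zero =>
    rw [mul_zero, pow_zero, mul_one, uu_inv]
    simp only [orb, point, uu]
    exact ⟨by ring, step0 y⟩
  | succ k ih =>
    have e : al ^ (2 * (k + 1)) = al ^ (2 * k) * al ^ 2 := by rw [← pow_add]; congr 1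
    have e1 : uu y * al ^ (2 * (k + 1)) = (uu y * al ^ (2 * k)) * (3 + 2 * Real.sqrt 2) := by
      rw [e, al_sq]; ring
    have e2 : (uu y * al ^ (2 * (k + 1)))⁻¹ = (uu y * al ^ (2 * k))⁻¹ * (3 - 2 * Real.sqrt 2) := by
      rw [e, ← mul_assoc, mul_inv, al_inv_sq]
    rw [e2, e1]
    simp only [orb]
    rw [ih.1, ih.2]
    exact ⟨step1 _ _, step2 _ _⟩

/-- the orbit stays on the hyperbola -/
lemma orb_norm (y : ℝ) (k : ℕ) :
    (orb (point y) k).1 ^ 2 - 2 * (orb (point y) k).2 ^ 2 = -1 ∧ 0 < (orb (point y) k).2 := by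
  obtain ⟨h1, h2⟩ := orb_closed y k
  have hz : 0 < uu y * al ^ (2 * k) := mul_pos (uu_pos y) (pow_pos (by linarith [al_gt]) _)
  have h3 := s2
  have h3p := s2_pos
  rw [h1, h2]
  set z := uu y * al ^ (2 * k)
  have hzz : z * z⁻¹ = 1 := mul_inv_cancel₀ hz.ne'
  constructor
  · have e : ((z + z⁻¹) / (2 * Real.sqrt 2)) ^ 2 = (z + z⁻¹) ^ 2 / 8 := by
      rw [div_pow, mul_pow, h3]; norm_num
    rw [e]
    linear_combination (-1) * hzz
  · have := inv_pos.2 hz
    positivity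

/-- almost every `y` from almost every coefficient -/
lemma transport {Q : ℝ → Prop} {c : ℝ} (hc : 0 < c) (h : ∀ᵐ b : ℝ, 0 < b → Q b) :
    ∀ᵐ y : ℝ, Q (c * uu y) := by
  rw [ae_iff] at h ⊢
  set N : Set ℝ := {b | ¬ (0 < b → Q b)} with hN
  have hsub : {y : ℝ | ¬ Q (c * uu y)} ⊆ (fun b : ℝ => (b / c - c / b) / 2) '' N := by
    intro y hy
    have hu := uu_pos y
    refine ⟨c * uu y, ?_, ?_⟩
    · rw [hN, mem_ofPred_eq]
      intro hh
      exact hy (hh (by positivity))
    · show (c * uu y / c - c / (c * uu y)) / 2 = y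
      have e1 : c * uu y / c = uu y := by field_simp
      have e2 : c / (c * uu y) = (uu y)⁻¹ := by field_simp
      rw [e1, e2, uu_inv]
      unfold uu
      ring
  have hpos : ∀ b ∈ N, b ≠ 0 := by
    intro b hb h0
    rw [hN, mem_ofPred_eq, h0] at hb
    exact hb fun h => absurd h (lt_irrefl _)
  have hdiff : DifferentiableOn ℝ (fun b : ℝ => (b / c - c / b) / 2) N := by
    intro b hb
    refine DifferentiableAt.differentiableWithinAt ?_
    have := hpos b hb
    fun_prop (disch := assumption)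
  exact measure_mono_null hsub
    (addHaar_image_eq_zero_of_differentiableOn_of_addHaar_eq_zero volume hdiff h)

/-- the two sequences, for odd indices -/
lemma seq_eq (y : ℝ) {l : ℕ} (hl : Odd l) :
    (orb (point y) (l / 2)).1 = (1 / (2 * al) * uu y) * al ^ l +
        (-(al / (2 * uu y))) / al ^ l ∧
      (orb (point y) (l / 2)).2 = (1 / (2 * Real.sqrt 2 * al) * uu y) * al ^ l +
        (al / (2 * Real.sqrt 2 * uu y)) / al ^ l := by
  obtain ⟨k, rfl⟩ := hl
  have hk : (2 * k + 1) / 2 = k := by omega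
  rw [hk]
  obtain ⟨h1, h2⟩ := orb_closed y k
  have hu := uu_pos y
  have ha : 0 < al := by linarith [al_gt]
  have h3p := s2_pos
  rw [h1, h2, pow_succ]
  constructor
  · field_simp
    ring
  · field_simp

/-- the statements for almost every real point -/
theorem pt_orb (S : Set ℕ) : ∀ᵐ y : ℝ,
    Pt (fun l => ⌊(orb (point y) (l / 2)).1⌋₊)
      (Real.exp Real.eulerMascheroniConstant / Real.log al) S ∧
    Pt (fun l => ⌊(orb (point y) (l / 2)).2⌋₊)
      (Real.exp Real.eulerMascheroniConstant / Real.log al) S := by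
  have ha : 0 < al := by linarith [al_gt]
  have h3p := s2_pos
  have hbase : ∀ᵐ b : ℝ, 0 < b → (Pt (fun p => ⌊b * al ^ p + 0 * (1 - Real.sqrt 2) ^ p⌋₊)
      (Real.exp Real.eulerMascheroniConstant / Real.log al) S) ∧
      ∀ g : ℕ → ℝ, ∀ K : ℝ, (∀ p, |g p| ≤ K / al ^ p) →
        ∀ᶠ p : ℕ in atTop, ⌊b * al ^ p + g p⌋₊ = ⌊b * al ^ p⌋₊ := by
    filter_upwards [Pool.Agent.H19P.pt_unit (P := 2) al_gt (α' := 1 - Real.sqrt 2)
      (by unfold al; push_cast; ring) (by unfold al; have := s2; nlinarith) 0 S,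
      ae_floor al_gt] with b h1 h2 h0
    exact ⟨h1 h0, h2 h0⟩
  have hodd : ∀ᶠ p : ℕ in atTop, p.Prime → Odd p := by
    filter_upwards [eventually_gt_atTop 2] with p hp hpp
    exact hpp.odd_of_ne_two (by omega)
  filter_upwards [transport (c := 1 / (2 * al)) (by positivity) hbase,
    transport (c := 1 / (2 * Real.sqrt 2 * al)) (by positivity) hbase] with y hy1 hy2
  have hu := uu_pos y
  constructor
  · refine Pt_congr hy1.1 ?_
    have hK : ∀ p : ℕ, |(-(al / (2 * uu y))) / al ^ p| ≤ (al / (2 * uu y)) / al ^ p := by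
      intro p
      rw [neg_div, abs_neg, abs_of_pos (by positivity)]
    filter_upwards [hodd, hy1.2 _ _ hK] with p hp h hpp
    rw [(seq_eq y (hp hpp)).1, h, zero_mul, add_zero]
  · refine Pt_congr hy2.1 ?_
    have hK : ∀ p : ℕ, |(al / (2 * Real.sqrt 2 * uu y)) / al ^ p| ≤
        (al / (2 * Real.sqrt 2 * uu y)) / al ^ p := by
      intro p
      rw [abs_of_pos (by positivity)]
    filter_upwards [hodd, hy2.2 _ _ hK] with p hp h hpp
    rw [(seq_eq y (hp hpp)).2, h, zero_mul, add_zero]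

end Pool.Agent.R242.PE
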